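import Pool.Agent.Helper14.BSC.Stmts

/-!
# Module POW: deep one-units are `M`-th powers
-/

set_option autoImplicit false

namespace Pool.Agent.Helper14.BSC

section pow

variable {k Ω : Type} [Field k] [Field Ω] [Algebra k Ω] {p : ℕ} [Fact p.Prime]

theorem pow_nm_mul (Lc : Loc k Ω p) (x y : Acl k Ω) : nm Lc (x * y) = nm Lc x * nm Lc y := by
  unfold nm
  rw [map_mul, norm_mul]

theorem pow_nm_pow (Lc : Loc k Ω p) (x : Acl k Ω) (n : ℕ) : nm Lc (x ^ n) = nm Lc x ^ n := by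
  unfold nm
  rw [map_pow, norm_pow]

theorem pow_nm_inv (Lc : Loc k Ω p) (x : Acl k Ω) : nm Lc x⁻¹ = (nm Lc x)⁻¹ := by
  unfold nm
  rw [map_inv₀, norm_inv]

theorem pow_nm_zpow (Lc : Loc k Ω p) (x : Acl k Ω) (n : ℤ) : nm Lc (x ^ n) = nm Lc x ^ n := by
  unfold nm
  rw [map_zpow₀, norm_zpow]

theorem pow_nm_div (Lc : Loc k Ω p) (x y : Acl k Ω) : nm Lc (x / y) = nm Lc x / nm Lc y := by
  unfold nm
  rw [map_div₀, norm_div]

/-- the uniformizer of `FF S₁` -/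
def pow_pi (Lc : Loc k Ω p) : FF Lc.S₁ := ⟨Lc.π, Lc.memπ⟩

theorem pow_piN (D : Sec k Ω) (Lc : Loc k Ω p) : piN D Lc = inc D Lc.S₁ (pow_pi Lc) := rfl

theorem pow_nm_pi (Lc : Loc k Ω p) : nm Lc (pow_pi Lc) = nm Lc Lc.π := rfl

theorem pow_inc_inj (D : Sec k Ω) (S : Set (Acl k Ω)) {x y : FF S} (h : inc D S x = inc D S y) :
    x = y := (inc D S).toRingHom.injective h

theorem pow_pi_ne (Lc : Loc k Ω p) : pow_pi Lc ≠ 0 := by
  intro h
  have h1 : (Lc.π : Acl k Ω) = 0 := congrArg Subtype.val h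
  have h2 := Lc.posπ
  rw [h1, map_zero, norm_zero] at h2
  exact lt_irrefl _ h2

theorem pow_piN_ne (D : Sec k Ω) (Lc : Loc k Ω p) : piN D Lc ≠ 0 := by
  rw [pow_piN]
  exact (map_ne_zero_iff _ (inc D Lc.S₁).toRingHom.injective).2 (pow_pi_ne Lc)

theorem pow_v_le (D : Sec k Ω) (Lc : Loc k Ω p) {B : ValuationSubring (NN D Lc.S₁)}
    (hB : Over D Lc B) (c : FF Lc.S₁) :
    B.valuation (inc D Lc.S₁ c) ≤ 1 ↔ nm Lc c ≤ 1 := by
  rw [B.valuation_le_one_iff]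
  exact hB c

theorem pow_v_lt (D : Sec k Ω) (Lc : Loc k Ω p) {B : ValuationSubring (NN D Lc.S₁)}
    (hB : Over D Lc B) (c : FF Lc.S₁) :
    B.valuation (inc D Lc.S₁ c) < 1 ↔ nm Lc c < 1 := by
  by_cases hc : c = 0
  · subst hc
    have h1 : nm Lc ((0 : FF Lc.S₁) : Acl k Ω) = 0 := by
      unfold nm
      rw [ZeroMemClass.coe_zero, map_zero, norm_zero]
    rw [h1, map_zero, map_zero]
    exact ⟨fun _ => one_pos, fun _ => zero_lt_one⟩
  · have h0 : 0 < nm Lc c := by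
      unfold nm
      rw [norm_pos_iff]
      intro h
      apply hc
      apply Subtype.ext
      exact (map_eq_zero_iff _ Lc.ι.injective).1 h
    have hv0 : B.valuation (inc D Lc.S₁ c) ≠ 0 := by
      rw [Valuation.ne_zero_iff]
      exact (map_ne_zero_iff _ (inc D Lc.S₁).toRingHom.injective).2 hc
    have h1 := pow_v_le D Lc hB c⁻¹
    rw [map_inv₀, map_inv₀] at h1
    have h2 : nm Lc ((c⁻¹ : FF Lc.S₁) : Acl k Ω) = (nm Lc c)⁻¹ := pow_nm_inv Lc c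
    rw [h2, inv_le_one₀ h0, inv_le_one₀ (zero_lt_iff.2 hv0)] at h1
    rw [← not_le, ← not_le, h1]

theorem pow_v_eq (D : Sec k Ω) (Lc : Loc k Ω p) {B : ValuationSubring (NN D Lc.S₁)}
    (hB : Over D Lc B) (c : FF Lc.S₁) (hc : nm Lc c = 1) :
    B.valuation (inc D Lc.S₁ c) = 1 := by
  have h1 := (pow_v_le D Lc hB c).2 hc.le
  have h2 := (pow_v_lt D Lc hB c).not.2 (by rw [hc]; exact lt_irrefl _)
  exact le_antisymm h1 (not_lt.1 h2)

theorem pow_v_pi (D : Sec k Ω) (Lc : Loc k Ω p) {B : ValuationSubring (NN D Lc.S₁)}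
    (hB : Over D Lc B) : B.valuation (piN D Lc) < 1 := by
  rw [pow_piN, pow_v_lt D Lc hB]
  exact Lc.ltπ

/-- iterated approximation -/
theorem pow_den (D : Sec k Ω) (Lc : Loc k Ω p) {B : ValuationSubring (NN D Lc.S₁)}
    (hden : ∀ x ∈ B, ∃ c : FF Lc.S₁, (x - inc D Lc.S₁ c) / piN D Lc ∈ B) (n : ℕ) :
    ∀ x ∈ B, ∃ c : FF Lc.S₁, (x - inc D Lc.S₁ c) / piN D Lc ^ n ∈ B := by
  induction n with
  | zero =>
    intro x hx
    refine ⟨0, ?_⟩
    rw [map_zero, sub_zero, pow_zero, div_one]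
    exact hx
  | succ n ih =>
    intro x hx
    obtain ⟨c, hc⟩ := ih x hx
    obtain ⟨c', hc'⟩ := hden _ hc
    refine ⟨c + pow_pi Lc ^ n * c', ?_⟩
    have h0 := pow_piN_ne D Lc
    have e : (x - inc D Lc.S₁ (c + pow_pi Lc ^ n * c')) / piN D Lc ^ (n + 1) =
        ((x - inc D Lc.S₁ c) / piN D Lc ^ n - inc D Lc.S₁ c') / piN D Lc := by
      rw [map_add, map_mul, map_pow, ← pow_piN]
      field_simp
      ring
    rw [e]
    exact hc'

end pow

theorem st_POW (hD : ST_DEN) (hM : ST_MIN) (hK : ST_KUM) (hF : ST_POWF) (_hR : ST_ROOT) :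
    ST_POW := by
  intro k Ω _ _ _ _ _ D p _ Lc B hB hN M hM0
  obtain ⟨δ, hδ, hpow⟩ := hF k Ω p Lc M hM0
  have hden := pow_den D Lc (hD k Ω D p Lc B hB hN)
  have hmin := hM k Ω D p Lc B hB hN
  have hπ0 : 0 < nm Lc Lc.π := Lc.posπ
  have hπ1 : nm Lc Lc.π < 1 := Lc.ltπ
  obtain ⟨n0, hn0⟩ := exists_pow_lt_of_lt_one hδ hπ1
  set n := n0 + 1 with hn
  have hnδ : nm Lc Lc.π ^ n < δ := by
    refine lt_of_le_of_lt ?_ hn0
    exact pow_le_pow_of_le_one hπ0.le hπ1.le (Nat.le_succ _)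
  refine ⟨n, fun x hx => ?_⟩
  have hP := pow_piN_ne D Lc
  set v := B.valuation with hv
  have hvπ := pow_v_pi D Lc hB
  have hvπ0 : v (piN D Lc) ≠ 0 := (Valuation.ne_zero_iff _).2 hP
  have hvx : v x ≤ 1 := (B.valuation_le_one_iff x).2 hx
  have hvπn : v (piN D Lc ^ n) < 1 := by
    rw [map_pow]
    exact pow_lt_one₀ zero_le hvπ (by omega)
  have hv1 : v (piN D Lc ^ n * x) < 1 := by
    rw [map_mul]
    exact lt_of_le_of_lt (mul_le_of_le_one_right' hvx) hvπn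
  have hX1 : v (1 + piN D Lc ^ n * x) = 1 := by
    rw [Valuation.map_add_eq_of_lt_left, map_one]
    rw [map_one]
    exact hv1
  have hX0 : (1 + piN D Lc ^ n * x) ≠ 0 := by
    intro h
    rw [h, map_zero] at hX1
    exact zero_ne_one hX1
  obtain ⟨c, hc, g, hg, hcg⟩ := hK k Ω D Lc.S₁ M hM0 _ hX0
  obtain ⟨j, hj⟩ := Lc.disc (c : Acl k Ω) c.2 (by
    intro h
    exact hc (Subtype.ext h))
  -- the unit part
  set c0 : FF Lc.S₁ := c / pow_pi Lc ^ j with hc0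
  have hpi := pow_pi_ne Lc
  have hcc0 : c = c0 * pow_pi Lc ^ j := by
    rw [hc0, div_mul_cancel₀]
    exact zpow_ne_zero _ hpi
  have hnc0 : nm Lc c0 = 1 := by
    have e : ((c0 : FF Lc.S₁) : Acl k Ω) = (c : Acl k Ω) / Lc.π ^ j := rfl
    rw [e, pow_nm_div, pow_nm_zpow]
    have : nm Lc c = nm Lc Lc.π ^ j := hj
    rw [this, div_self]
    exact zpow_ne_zero _ hπ0.ne'
  set q := j / (M : ℤ) with hq
  set r := j % (M : ℤ) with hr
  have hMZ : (0 : ℤ) < M := by exact_mod_cast hM0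
  have hr0 : 0 ≤ r := Int.emod_nonneg _ hMZ.ne'
  have hrM : r < M := Int.emod_lt_of_pos _ hMZ
  have hjr : j = r + M * q := (Int.emod_add_mul_ediv j M).symm
  obtain ⟨s, hs⟩ := Int.eq_ofNat_of_zero_le hr0
  have hsM : s < M := by
    have : (s : ℤ) < M := by rw [← hs]; exact hrM
    exact_mod_cast this
  have hXe : 1 + piN D Lc ^ n * x =
      inc D Lc.S₁ c0 * piN D Lc ^ s * (piN D Lc ^ q * g) ^ M := by
    rw [hcg]
    conv_lhs => rw [hcc0]
    rw [map_mul, map_zpow₀, ← pow_piN, hjr, hs, zpow_add₀ hP, zpow_natCast, mul_pow,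
      ← zpow_natCast (piN D Lc ^ q) M, ← zpow_mul, mul_comm (M : ℤ) q]
    ring
  have hvc0 : v (inc D Lc.S₁ c0) = 1 := pow_v_eq D Lc hB c0 hnc0
  set g' := piN D Lc ^ q * g with hg'
  have hg'0 : g' ≠ 0 := mul_ne_zero (zpow_ne_zero _ hP) hg
  have hveq : v (piN D Lc) ^ s * v g' ^ M = 1 := by
    have h1 := hX1
    rw [hXe, map_mul, map_mul, map_pow, map_pow, hvc0, one_mul] at h1
    exact h1
  have hvg0 : v g' ≠ 0 := (Valuation.ne_zero_iff _).2 hg'0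
  have hs0 : s = 0 := by
    by_contra hs0
    have h1 : v (piN D Lc) ^ s < 1 := pow_lt_one₀ zero_le hvπ hs0
    have h2 : 1 < v g' := by
      by_contra h2
      rw [not_lt] at h2
      have h3 : v (piN D Lc) ^ s * v g' ^ M < 1 :=
        lt_of_le_of_lt (mul_le_of_le_one_right' (pow_le_one' h2 M)) h1
      rw [hveq] at h3
      exact lt_irrefl _ h3
    have h3 : v g'⁻¹ < 1 := by
      rw [map_inv₀]
      exact inv_lt_one_of_one_lt₀ h2
    have h4 := hmin g'⁻¹ h3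
    have h5 : v (g'⁻¹) ≤ v (piN D Lc) := by
      have h6 := (B.valuation_le_one_iff _).2 h4
      rw [map_div₀] at h6
      exact (div_le_one₀ (zero_lt_iff.2 hvπ0)).1 h6
    have h7 : v (piN D Lc) ^ s = (v g'⁻¹) ^ M := by
      rw [map_inv₀, inv_pow]
      exact eq_inv_of_mul_eq_one_left hveq
    have h8 : (v g'⁻¹) ^ M ≤ v (piN D Lc) ^ M := pow_le_pow_left' h5 M
    have h9 : v (piN D Lc) ^ M < v (piN D Lc) ^ s :=
      pow_lt_pow_right_of_lt_one₀ (zero_lt_iff.2 hvπ0) hvπ hsM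
    rw [h7] at h9
    exact absurd (lt_of_lt_of_le h9 h8) (lt_irrefl _)
  rw [hs0, pow_zero, one_mul] at hveq
  rw [hs0, pow_zero, mul_one] at hXe
  have hvg : v g' = 1 := by
    rcases lt_trichotomy (v g') 1 with h | h | h
    · exact absurd hveq (pow_lt_one₀ zero_le h hM0.ne').ne
    · exact h
    · exact absurd hveq (one_lt_pow₀ h hM0.ne').ne'
  have hgB : g' ∈ B := (B.valuation_le_one_iff _).1 hvg.le
  obtain ⟨c1, hc1⟩ := hden n g' hgB
  have hπn0 : piN D Lc ^ n ≠ 0 := pow_ne_zero _ hP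
  have hvd : v (g' - inc D Lc.S₁ c1) ≤ v (piN D Lc ^ n) := by
    have h6 := (B.valuation_le_one_iff _).2 hc1
    rw [map_div₀] at h6
    exact (div_le_one₀ (zero_lt_iff.2 ((Valuation.ne_zero_iff _).2 hπn0))).1 h6
  have hvc1 : v (inc D Lc.S₁ c1) = 1 := by
    have h1 : v (g' - inc D Lc.S₁ c1) < v g' := by
      rw [hvg]; exact lt_of_le_of_lt hvd hvπn
    have h2 : inc D Lc.S₁ c1 = g' - (g' - inc D Lc.S₁ c1) := by ring
    rw [h2, Valuation.map_sub_eq_of_lt_left _ h1]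
    exact hvg
  have hc1B : inc D Lc.S₁ c1 ∈ B := (B.valuation_le_one_iff _).1 hvc1.le
  have hc10 : inc D Lc.S₁ c1 ≠ 0 := by
    intro h
    rw [h, map_zero] at hvc1
    exact zero_ne_one hvc1
  -- the difference of powers
  have hdp : v (g' ^ M - inc D Lc.S₁ c1 ^ M) ≤ v (piN D Lc ^ n) := by
    obtain ⟨t, ht⟩ := sub_dvd_pow_sub_pow (⟨g', hgB⟩ : B) ⟨inc D Lc.S₁ c1, hc1B⟩ M
    have ht' : g' ^ M - inc D Lc.S₁ c1 ^ M = (g' - inc D Lc.S₁ c1) * (t : NN D Lc.S₁) :=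
      congrArg Subtype.val ht
    rw [ht', map_mul]
    have : v (t : NN D Lc.S₁) ≤ 1 := (B.valuation_le_one_iff _).2 t.2
    exact (mul_le_of_le_one_right' this).trans hvd
  have hclose : v (inc D Lc.S₁ (c0 * c1 ^ M - 1)) ≤ v (piN D Lc ^ n) := by
    have e : inc D Lc.S₁ (c0 * c1 ^ M - 1) = piN D Lc ^ n * x -
        inc D Lc.S₁ c0 * (g' ^ M - inc D Lc.S₁ c1 ^ M) := by
      rw [map_sub, map_mul, map_pow, map_one]
      linear_combination (-1 : NN D Lc.S₁) * hXe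
    rw [e]
    refine (Valuation.map_sub _ _ _).trans (max_le ?_ ?_)
    · rw [map_mul]
      exact mul_le_of_le_one_right' hvx
    · rw [map_mul, hvc0, one_mul]
      exact hdp
  have hnm : nm Lc ((c0 * c1 ^ M : FF Lc.S₁) - 1 : Acl k Ω) < δ := by
    have h1 : v (inc D Lc.S₁ ((c0 * c1 ^ M - 1) / pow_pi Lc ^ n)) ≤ 1 := by
      rw [map_div₀, map_div₀, map_pow, ← pow_piN]
      exact (div_le_one₀ (zero_lt_iff.2 ((Valuation.ne_zero_iff _).2 hπn0))).2 hclose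
    rw [pow_v_le D Lc hB] at h1
    have e : (((c0 * c1 ^ M - 1) / pow_pi Lc ^ n : FF Lc.S₁) : Acl k Ω) =
        ((c0 * c1 ^ M : FF Lc.S₁) - 1 : Acl k Ω) / Lc.π ^ n := rfl
    rw [e, pow_nm_div, pow_nm_pow, div_le_one (pow_pos hπ0 n)] at h1
    exact lt_of_le_of_lt h1 hnδ
  obtain ⟨y, hy⟩ := hpow (c0 * c1 ^ M) hnm
  refine ⟨inc D Lc.S₁ y * g' / inc D Lc.S₁ c1, ?_⟩
  have hy' : inc D Lc.S₁ c0 * inc D Lc.S₁ c1 ^ M = inc D Lc.S₁ y ^ M := by
    rw [← map_pow, ← map_pow, ← map_mul, hy]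
  have hfin : (inc D Lc.S₁ y * g' / inc D Lc.S₁ c1) ^ M = inc D Lc.S₁ c0 * g' ^ M := by
    rw [div_pow, mul_pow (inc D Lc.S₁ y), ← hy']
    field_simp
  rw [hXe, hfin]

end Pool.Agent.Helper14.BSC
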